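import Mathlib

set_option autoImplicit false

namespace Pool.Agent.H443R3.TT

/-- A tile in sheared coordinates: `(true, z, y, s)` is the right isosceles triangle with right
angle at its top left corner `(z, y)`, `(false, z, y, s)` the one with right angle at its bottom
right corner `(z, y)`. -/
abbrev Tile : Type := Bool × ℝ × ℝ × ℝ

/-- `(z, b, h)` is the rectangle `[z, z + b] × [0, h]`. -/
abbrev Rect : Type := ℝ × ℝ × ℝ

def sz (t : Tile) : ℝ := t.2.2.2

/-- closed tile -/
def Cl (t : Tile) : Set (ℝ × ℝ) :=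
  if t.1 then {p | t.2.1 ≤ p.1 ∧ p.2 ≤ t.2.2.1 ∧ p.1 - p.2 ≤ t.2.1 - t.2.2.1 + t.2.2.2}
  else {p | p.1 ≤ t.2.1 ∧ t.2.2.1 ≤ p.2 ∧ t.2.1 - t.2.2.1 - t.2.2.2 ≤ p.1 - p.2}

/-- open tile -/
def Op (t : Tile) : Set (ℝ × ℝ) :=
  if t.1 then {p | t.2.1 < p.1 ∧ p.2 < t.2.2.1 ∧ p.1 - p.2 < t.2.1 - t.2.2.1 + t.2.2.2}
  else {p | p.1 < t.2.1 ∧ t.2.2.1 < p.2 ∧ t.2.1 - t.2.2.1 - t.2.2.2 < p.1 - p.2}

def CR (R : Rect) : Set (ℝ × ℝ) := {p | R.1 ≤ p.1 ∧ p.1 ≤ R.1 + R.2.1 ∧ 0 ≤ p.2 ∧ p.2 ≤ R.2.2}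
def OR (R : Rect) : Set (ℝ × ℝ) := {p | R.1 < p.1 ∧ p.1 < R.1 + R.2.1 ∧ 0 < p.2 ∧ p.2 < R.2.2}

theorem mem_Cl_t (z y s : ℝ) (p : ℝ × ℝ) :
    p ∈ Cl (true, z, y, s) ↔ z ≤ p.1 ∧ p.2 ≤ y ∧ p.1 - p.2 ≤ z - y + s := by
  simp [Cl]

theorem mem_Cl_f (z y s : ℝ) (p : ℝ × ℝ) :
    p ∈ Cl (false, z, y, s) ↔ p.1 ≤ z ∧ y ≤ p.2 ∧ z - y - s ≤ p.1 - p.2 := by
  simp [Cl]

theorem mem_Op_t (z y s : ℝ) (p : ℝ × ℝ) :
    p ∈ Op (true, z, y, s) ↔ z < p.1 ∧ p.2 < y ∧ p.1 - p.2 < z - y + s := by
  simp [Op]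

theorem mem_Op_f (z y s : ℝ) (p : ℝ × ℝ) :
    p ∈ Op (false, z, y, s) ↔ p.1 < z ∧ y < p.2 ∧ z - y - s < p.1 - p.2 := by
  simp [Op]

theorem mem_CR (z b h : ℝ) (p : ℝ × ℝ) :
    p ∈ CR (z, b, h) ↔ z ≤ p.1 ∧ p.1 ≤ z + b ∧ 0 ≤ p.2 ∧ p.2 ≤ h := Iff.rfl

theorem mem_OR (z b h : ℝ) (p : ℝ × ℝ) :
    p ∈ OR (z, b, h) ↔ z < p.1 ∧ p.1 < z + b ∧ 0 < p.2 ∧ p.2 < h := Iff.rfl

/-- The finite family of tiles `T` and rectangles `L` refines the region `(C, O)`. -/
structure Ref (C O : Set (ℝ × ℝ)) (T : Finset Tile) (L : Finset Rect) : Prop where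
  cover : ∀ p ∈ C, 0 < p.2 → (∃ t ∈ T, p ∈ Cl t) ∨ (∃ R ∈ L, p ∈ CR R)
  subT : ∀ t ∈ T, Op t ⊆ O
  subR : ∀ R ∈ L, OR R ⊆ O
  dTT : ∀ s ∈ T, ∀ t ∈ T, s ≠ t → Disjoint (Op s) (Op t)
  dTR : ∀ s ∈ T, ∀ R ∈ L, Disjoint (Op s) (OR R)
  dRR : ∀ R ∈ L, ∀ R' ∈ L, R ≠ R' → Disjoint (OR R) (OR R')

open Classical in
theorem Ref.replace {C O : Set (ℝ × ℝ)} {T : Finset Tile} {M : Finset Rect} {R : Rect}
    (h : Ref C O T (insert R M)) (hR : R ∉ M) {T1 : Finset Tile} {L1 : Finset Rect}
    (h1 : Ref (CR R) (OR R) T1 L1) : Ref C O (T ∪ T1) (L1 ∪ M) := by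
  have hRin : R ∈ insert R M := Finset.mem_insert_self _ _
  have hM : ∀ R' ∈ M, R' ∈ insert R M := fun R' h' => Finset.mem_insert_of_mem h'
  have hne : ∀ R' ∈ M, R ≠ R' := by
    rintro R' h' rfl
    exact hR h'
  have dRM : ∀ R' ∈ M, Disjoint (OR R) (OR R') := fun R' h' =>
    h.dRR R hRin R' (hM R' h') (hne R' h')
  constructor
  · intro p hp h0
    rcases h.cover p hp h0 with ⟨t, ht, hpt⟩ | ⟨R', hR', hpR⟩
    · exact Or.inl ⟨t, Finset.mem_union_left _ ht, hpt⟩
    · rcases Finset.mem_insert.1 hR' with rfl | h'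
      · rcases h1.cover p hpR h0 with ⟨t, ht, hpt⟩ | ⟨R'', hR'', hpR''⟩
        · exact Or.inl ⟨t, Finset.mem_union_right _ ht, hpt⟩
        · exact Or.inr ⟨R'', Finset.mem_union_left _ hR'', hpR''⟩
      · exact Or.inr ⟨R', Finset.mem_union_right _ h', hpR⟩
  · intro t ht
    rcases Finset.mem_union.1 ht with ht | ht
    · exact h.subT t ht
    · exact (h1.subT t ht).trans (h.subR R hRin)
  · intro R' hR'
    rcases Finset.mem_union.1 hR' with h' | h'
    · exact (h1.subR R' h').trans (h.subR R hRin)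
    · exact h.subR R' (hM R' h')
  · intro s hs t ht hst
    rcases Finset.mem_union.1 hs with hs | hs <;> rcases Finset.mem_union.1 ht with ht | ht
    · exact h.dTT s hs t ht hst
    · exact (h.dTR s hs R hRin).mono_right (h1.subT t ht)
    · exact ((h.dTR t ht R hRin).mono_right (h1.subT s hs)).symm
    · exact h1.dTT s hs t ht hst
  · intro s hs R' hR'
    rcases Finset.mem_union.1 hs with hs | hs <;> rcases Finset.mem_union.1 hR' with h' | h'
    · exact (h.dTR s hs R hRin).mono_right (h1.subR R' h')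
    · exact h.dTR s hs R' (hM R' h')
    · exact h1.dTR s hs R' h'
    · exact (dRM R' h').mono_left (h1.subT s hs)
  · intro A hA B hB hAB
    rcases Finset.mem_union.1 hA with hA | hA <;> rcases Finset.mem_union.1 hB with hB | hB
    · exact h1.dRR A hA B hB hAB
    · exact (dRM B hB).mono_left (h1.subR A hA)
    · exact ((dRM A hA).mono_left (h1.subR B hB)).symm
    · exact h.dRR A (hM A hA) B (hM B hB) hAB

/-- the trivial refinement of a rectangle -/
theorem Ref.self (R : Rect) : Ref (CR R) (OR R) ∅ {R} := by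
  constructor
  · intro p hp _
    exact Or.inr ⟨R, by simp, hp⟩
  · simp
  · intro R' hR'
    rw [Finset.mem_singleton.1 hR']
  · simp
  · simp
  · intro A hA B hB hAB
    rw [Finset.mem_singleton] at hA hB
    exact absurd (hA.trans hB.symm) hAB

open Classical in
/-- cut a rectangle vertically -/
theorem Ref.cut (z b c h : ℝ) (hb : 0 < b) (hc : 0 < c) :
    Ref (CR (z, b + c, h)) (OR (z, b + c, h)) ∅ {(z, b, h), (z + b, c, h)} := by
  constructor
  · intro p hp _
    right
    rw [mem_CR] at hp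
    rcases le_total p.1 (z + b) with h1 | h1
    · exact ⟨_, Finset.mem_insert_self _ _, ⟨hp.1, h1, hp.2.2.1, hp.2.2.2⟩⟩
    · exact ⟨_, Finset.mem_insert_of_mem (Finset.mem_singleton_self _),
        ⟨h1, by have := hp.2.1; show p.1 ≤ z + b + c; linarith, hp.2.2.1, hp.2.2.2⟩⟩
  · simp
  · intro R hR p hp
    rw [mem_OR]
    rw [Finset.mem_insert, Finset.mem_singleton] at hR
    rcases hR with rfl | rfl
    · rw [mem_OR] at hp
      exact ⟨hp.1, by linarith, hp.2.2.1, hp.2.2.2⟩
    · rw [mem_OR] at hp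
      exact ⟨by linarith, by linarith, hp.2.2.1, hp.2.2.2⟩
  · simp
  · simp
  · have key : Disjoint (OR (z, b, h)) (OR (z + b, c, h)) := by
      rw [Set.disjoint_left]
      intro p hp hp'
      rw [mem_OR] at hp hp'
      linarith [hp.2.1, hp'.1]
    intro A hA B hB hAB
    rw [Finset.mem_insert, Finset.mem_singleton] at hA hB
    rcases hA with rfl | rfl <;> rcases hB with rfl | rfl
    · exact absurd rfl hAB
    · exact key
    · exact key.symm
    · exact absurd rfl hAB

open Classical in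
/-- the column: one big tile hanging from the top, two tiles below it, two rectangles -/
theorem Ref.column (z h w v : ℝ) (hw : 0 < w) (hv : 0 < v) (hh : w + v < h) :
    Ref (CR (z, w + v, h)) (OR (z, w + v, h))
      {(true, z, h, w + v), (false, z + v + w, h - w, w), (false, z + v, h - w - v, v)}
      {(z + v, w, h - w), (z, v, h - w - v)} := by
  have d12 : Disjoint (Op (true, z, h, w + v)) (Op (false, z + v + w, h - w, w)) := by
    rw [Set.disjoint_left]
    intro p hp hp'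
    rw [mem_Op_t] at hp
    rw [mem_Op_f] at hp'
    linarith [hp.2.2, hp'.2.2]
  have d13 : Disjoint (Op (true, z, h, w + v)) (Op (false, z + v, h - w - v, v)) := by
    rw [Set.disjoint_left]
    intro p hp hp'
    rw [mem_Op_t] at hp
    rw [mem_Op_f] at hp'
    linarith [hp.2.2, hp'.2.2]
  have d23 : Disjoint (Op (false, z + v + w, h - w, w)) (Op (false, z + v, h - w - v, v)) := by
    rw [Set.disjoint_left]
    intro p hp hp'
    rw [mem_Op_f] at hp hp'
    linarith [hp.2.2, hp'.1, hp.2.1]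
  have e11 : Disjoint (Op (true, z, h, w + v)) (OR (z + v, w, h - w)) := by
    rw [Set.disjoint_left]
    intro p hp hp'
    rw [mem_Op_t] at hp
    rw [mem_OR] at hp'
    linarith [hp.2.2, hp'.1, hp'.2.2.2]
  have e12 : Disjoint (Op (true, z, h, w + v)) (OR (z, v, h - w - v)) := by
    rw [Set.disjoint_left]
    intro p hp hp'
    rw [mem_Op_t] at hp
    rw [mem_OR] at hp'
    linarith [hp.2.2, hp'.1, hp'.2.2.2]
  have e21 : Disjoint (Op (false, z + v + w, h - w, w)) (OR (z + v, w, h - w)) := by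
    rw [Set.disjoint_left]
    intro p hp hp'
    rw [mem_Op_f] at hp
    rw [mem_OR] at hp'
    linarith [hp.2.1, hp'.2.2.2]
  have e22 : Disjoint (Op (false, z + v + w, h - w, w)) (OR (z, v, h - w - v)) := by
    rw [Set.disjoint_left]
    intro p hp hp'
    rw [mem_Op_f] at hp
    rw [mem_OR] at hp'
    linarith [hp.2.1, hp'.2.2.2]
  have e31 : Disjoint (Op (false, z + v, h - w - v, v)) (OR (z + v, w, h - w)) := by
    rw [Set.disjoint_left]
    intro p hp hp'
    rw [mem_Op_f] at hp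
    rw [mem_OR] at hp'
    linarith [hp.1, hp'.1]
  have e32 : Disjoint (Op (false, z + v, h - w - v, v)) (OR (z, v, h - w - v)) := by
    rw [Set.disjoint_left]
    intro p hp hp'
    rw [mem_Op_f] at hp
    rw [mem_OR] at hp'
    linarith [hp.2.1, hp'.2.2.2]
  have k12 : Disjoint (OR (z + v, w, h - w)) (OR (z, v, h - w - v)) := by
    rw [Set.disjoint_left]
    intro p hp hp'
    rw [mem_OR] at hp hp'
    linarith [hp.1, hp'.2.1]
  constructor
  · intro p hp h0
    rw [mem_CR] at hp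
    obtain ⟨h1, h2, _, h3⟩ := hp
    by_cases hd : p.1 - p.2 ≤ z - h + (w + v)
    · left
      exact ⟨(true, z, h, w + v), by simp, (mem_Cl_t _ _ _ _).2 ⟨h1, h3, hd⟩⟩
    · push Not at hd
      rcases le_total p.1 (z + v) with h4 | h4
      · rcases le_total p.2 (h - w - v) with h5 | h5
        · right
          exact ⟨(z, v, h - w - v), by simp, (mem_CR _ _ _ _).2 ⟨h1, h4, h0.le, h5⟩⟩
        · left
          exact ⟨(false, z + v, h - w - v, v), by simp,
            (mem_Cl_f _ _ _ _).2 ⟨h4, h5, by linarith⟩⟩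
      · rcases le_total p.2 (h - w) with h5 | h5
        · right
          exact ⟨(z + v, w, h - w), by simp,
            (mem_CR _ _ _ _).2 ⟨h4, by linarith, h0.le, h5⟩⟩
        · left
          exact ⟨(false, z + v + w, h - w, w), by simp,
            (mem_Cl_f _ _ _ _).2 ⟨by linarith, h5, by linarith⟩⟩
  · intro t ht p hp
    rw [mem_OR]
    simp only [Finset.mem_insert, Finset.mem_singleton] at ht
    rcases ht with rfl | rfl | rfl
    · rw [mem_Op_t] at hp
      obtain ⟨h1, h2, h3⟩ := hp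
      refine ⟨h1, by linarith, by linarith, h2⟩
    · rw [mem_Op_f] at hp
      obtain ⟨h1, h2, h3⟩ := hp
      refine ⟨by linarith, by linarith, by linarith, by linarith⟩
    · rw [mem_Op_f] at hp
      obtain ⟨h1, h2, h3⟩ := hp
      refine ⟨by linarith, by linarith, by linarith, by linarith⟩
  · intro R hR p hp
    rw [mem_OR]
    simp only [Finset.mem_insert, Finset.mem_singleton] at hR
    rcases hR with rfl | rfl
    · rw [mem_OR] at hp
      obtain ⟨h1, h2, h3, h4⟩ := hp
      refine ⟨by linarith, by linarith, by linarith, by linarith⟩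
    · rw [mem_OR] at hp
      obtain ⟨h1, h2, h3, h4⟩ := hp
      refine ⟨by linarith, by linarith, by linarith, by linarith⟩
  · intro s hs t ht hst
    simp only [Finset.mem_insert, Finset.mem_singleton] at hs ht
    rcases hs with rfl | rfl | rfl <;> rcases ht with rfl | rfl | rfl
    · exact absurd rfl hst
    · exact d12
    · exact d13
    · exact d12.symm
    · exact absurd rfl hst
    · exact d23
    · exact d13.symm
    · exact d23.symm
    · exact absurd rfl hst
  · intro s hs R hR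
    simp only [Finset.mem_insert, Finset.mem_singleton] at hs hR
    rcases hs with rfl | rfl | rfl <;> rcases hR with rfl | rfl
    · exact e11
    · exact e12
    · exact e21
    · exact e22
    · exact e31
    · exact e32
  · intro A hA B hB hAB
    simp only [Finset.mem_insert, Finset.mem_singleton] at hA hB
    rcases hA with rfl | rfl <;> rcases hB with rfl | rfl
    · exact absurd rfl hAB
    · exact k12
    · exact k12.symm
    · exact absurd rfl hAB

end Pool.Agent.H443R3.TT
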