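import Mathlib
import Pool.Agent.H443R3.TT.Basic

set_option autoImplicit false

namespace Pool.Agent.H443R3.TT

open Filter Topology

/-- the lower end of the admissible ratios -/
noncomputable def al : ℝ := 359 / 200

/-- admissible rectangle: height positive, ratio between `al` and `2` -/
def Base (R : Rect) : Prop := 0 < R.2.2 ∧ al * R.2.2 < R.2.1 ∧ R.2.1 < 2 * R.2.2

open Classical in
theorem cutN (n : ℕ) (hn : 1 ≤ n) : ∀ z b h : ℝ, 0 < h → n * al * h < b → b < 2 * n * h →
    ∃ L : Finset Rect, Ref (CR (z, b, h)) (OR (z, b, h)) ∅ L ∧ ∀ R ∈ L, Base R ∧ R.2.2 = h := by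
  induction n, hn using Nat.le_induction with
  | base =>
    intro z b h hh h1 h2
    refine ⟨{(z, b, h)}, Ref.self _, ?_⟩
    intro R hR
    rw [Finset.mem_singleton] at hR
    subst hR
    refine ⟨⟨hh, ?_, ?_⟩, rfl⟩
    · simpa using h1
    · simpa using h2
  | succ n hn ih =>
    intro z b h hh h1 h2
    have hn0 : (0 : ℝ) < n := by exact_mod_cast hn
    have hal : (0 : ℝ) < al := by unfold al; norm_num
    have hb : 0 < b := lt_trans (by positivity) h1
    have hn1 : (0 : ℝ) < (n : ℝ) + 1 := by positivity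
    set b1 : ℝ := b / ((n : ℝ) + 1) with hb1
    set c : ℝ := b * n / ((n : ℝ) + 1) with hc
    have hbc : b1 + c = b := by
      rw [hb1, hc]
      field_simp
      ring
    have hb1pos : 0 < b1 := by positivity
    have hcpos : 0 < c := by positivity
    push_cast at h1 h2
    have e1 : al * h < b1 := by
      rw [hb1, lt_div_iff₀ hn1]
      linarith
    have e2 : b1 < 2 * h := by
      rw [hb1, div_lt_iff₀ hn1]
      linarith
    have e3 : n * al * h < c := by
      rw [hc, lt_div_iff₀ hn1]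
      nlinarith [mul_lt_mul_of_pos_left h1 hn0]
    have e4 : c < 2 * n * h := by
      rw [hc, div_lt_iff₀ hn1]
      nlinarith [mul_lt_mul_of_pos_left h2 hn0]
    obtain ⟨L, hL, hL2⟩ := ih (z + b1) c h hh e3 e4
    have hcut := Ref.cut z b1 c h hb1pos hcpos
    rw [hbc, Finset.pair_comm] at hcut
    have hnot : ((z + b1, c, h) : Rect) ∉ ({(z, b1, h)} : Finset Rect) := by
      rw [Finset.mem_singleton]
      intro h'
      have := congrArg Prod.fst h'
      simp at this
      linarith
    have hrep := Ref.replace hcut hnot hL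
    rw [Finset.empty_union] at hrep
    refine ⟨_, hrep, ?_⟩
    intro R hR
    rcases Finset.mem_union.1 hR with h' | h'
    · exact hL2 R h'
    · rw [Finset.mem_singleton] at h'
      subst h'
      exact ⟨⟨hh, e1, e2⟩, rfl⟩

/-- the conditions on the two tiles below the big tile of a column -/
def ColOK (w v H : ℝ) (n : ℕ) : Prop :=
  0 < w ∧ 0 < v ∧ al * (H - w) < w ∧ w < 2 * (H - w) ∧ n * al * (H - w - v) < v ∧
    v < 2 * n * (H - w - v) ∧ 0 < H - w - v

open Classical in
theorem colRef {w v H : ℝ} {n : ℕ} (hn : 1 ≤ n) (z : ℝ) (h : ColOK w v H n) :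
    ∃ L : Finset Rect, Ref (CR (z, w + v, H)) (OR (z, w + v, H))
      {(true, z, H, w + v), (false, z + v + w, H - w, w), (false, z + v, H - w - v, v)} L ∧
      ∀ R ∈ L, Base R ∧ R.2.2 ≤ H / 2 := by
  obtain ⟨hw, hv, h1, h2, h3, h4, h5⟩ := h
  have hal : al = 359 / 200 := rfl
  have hcol := Ref.column z H w v hw hv (by linarith)
  rw [Finset.pair_comm (z + v, w, H - w)] at hcol
  obtain ⟨L, hL, hL2⟩ := cutN n hn z v (H - w - v) h5 h3 h4
  have hnot : ((z, v, H - w - v) : Rect) ∉ ({(z + v, w, H - w)} : Finset Rect) := by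
    rw [Finset.mem_singleton]
    intro h'
    have := congrArg Prod.fst h'
    simp at this
    linarith
  have hrep := Ref.replace hcol hnot hL
  rw [Finset.union_empty] at hrep
  refine ⟨_, hrep, ?_⟩
  have hHw : H - w ≤ H / 2 := by rw [hal] at h1; linarith
  intro R hR
  rcases Finset.mem_union.1 hR with h' | h'
  · refine ⟨(hL2 R h').1, ?_⟩
    rw [(hL2 R h').2]
    linarith
  · rw [Finset.mem_singleton] at h'
    subst h'
    exact ⟨⟨by show 0 < H - w; linarith, h1, h2⟩, hHw⟩

theorem eventually_pos (f : ℝ → ℝ) (hf : Continuous f) (h0 : 0 < f 0) :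
    ∀ᶠ e in 𝓝 (0 : ℝ), 0 < f e :=
  hf.continuousAt.eventually (lt_mem_nhds h0)

theorem ColOK.eventually {w v H : ℝ} {n : ℕ} (h : ColOK w v H n) (c d : ℝ) :
    ∀ᶠ e in 𝓝 (0 : ℝ), ColOK (w + c * e) (v + d * e) H n := by
  obtain ⟨hw, hv, h1, h2, h3, h4, h5⟩ := h
  have k1 := eventually_pos (fun e => w + c * e) (by fun_prop) (by simpa using hw)
  have k2 := eventually_pos (fun e => v + d * e) (by fun_prop) (by simpa using hv)
  have k3 := eventually_pos (fun e => (w + c * e) - al * (H - (w + c * e))) (by fun_prop)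
    (by simpa using h1)
  have k4 := eventually_pos (fun e => 2 * (H - (w + c * e)) - (w + c * e)) (by fun_prop)
    (by simpa using h2)
  have k5 := eventually_pos
    (fun e => (v + d * e) - n * al * (H - (w + c * e) - (v + d * e))) (by fun_prop)
    (by simpa using h3)
  have k6 := eventually_pos
    (fun e => 2 * n * (H - (w + c * e) - (v + d * e)) - (v + d * e)) (by fun_prop)
    (by simpa using h4)
  have k7 := eventually_pos (fun e => H - (w + c * e) - (v + d * e)) (by fun_prop)
    (by simpa using h5)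
  filter_upwards [k1, k2, k3, k4, k5, k6, k7] with e e1 e2 e3 e4 e5 e6 e7
  exact ⟨e1, e2, by linarith, by linarith, by linarith, by linarith, e7⟩

/-! ### the numbers -/

/-- a deficit `d` that can be realised by a column of a rectangle of height one -/
def Def (d : ℝ) : Prop :=
  0 < d ∧ ∃ n : ℕ, 1 ≤ n ∧ ∃ y : ℝ, 1 < 3 * y ∧ (al + 1) * y < 1 ∧ (1 + al * n) * d < y ∧
    y < (1 + 2 * n) * d

theorem def_of (d : ℝ) (hd : 0 < d) (n : ℕ) (hn : 1 ≤ n) (h1 : 1 < 3 * ((1 + 2 * n) * d))
    (h2 : (al + 1) * ((1 + al * n) * d) < 1) : Def d := by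
  have hal : al = 359 / 200 := rfl
  have hn' : (1 : ℝ) ≤ n := by exact_mod_cast hn
  have hlt : max (1 / 3) ((1 + al * n) * d) < min (200 / 559) ((1 + 2 * n) * d) := by
    rw [max_lt_iff, lt_min_iff, lt_min_iff]
    refine ⟨⟨by norm_num, by linarith⟩, ⟨?_, ?_⟩⟩
    · rw [hal] at h2 ⊢
      linarith
    · apply mul_lt_mul_of_pos_right _ hd
      rw [hal]
      linarith
  obtain ⟨y, hy1, hy2⟩ := exists_between hlt
  rw [max_lt_iff] at hy1
  rw [lt_min_iff] at hy2
  refine ⟨hd, n, hn, y, by linarith, ?_, hy1.2, hy2.2⟩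
  rw [hal]
  linarith [hy2.1]

theorem def_small (d : ℝ) (hd : 0 < d) (hd2 : d ≤ 355 / 10000) : Def d := by
  have hal : al = 359 / 200 := rfl
  rcases lt_or_ge (1 / 33) d with h | h
  · apply def_of d hd 5 (by norm_num)
    · push_cast
      linarith
    · rw [hal]
      push_cast
      linarith
  · set P : ℝ := 1 / d with hP
    have hPd : P * d = 1 := by rw [hP]; field_simp
    have hP33 : 33 ≤ P := by
      rw [hP, le_div_iff₀ hd]
      linarith
    set n : ℕ := ⌊(P - 3) / 6⌋₊ + 1 with hn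
    have hfl1 : (P - 3) / 6 < (⌊(P - 3) / 6⌋₊ : ℝ) + 1 := Nat.lt_floor_add_one _
    have hfl2 : (⌊(P - 3) / 6⌋₊ : ℝ) ≤ (P - 3) / 6 := Nat.floor_le (by linarith)
    have hn1 : (P - 3) / 6 < (n : ℝ) := by rw [hn]; push_cast; exact hfl1
    have hn2 : (n : ℝ) ≤ (P + 3) / 6 := by rw [hn]; push_cast; linarith
    apply def_of d hd n (by omega)
    · have : P < 3 * (1 + 2 * n) := by linarith
      calc (1 : ℝ) = P * d := hPd.symm
        _ < (3 * (1 + 2 * n)) * d := mul_lt_mul_of_pos_right this hd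
        _ = _ := by ring
    · have : (al + 1) * (1 + al * n) < P := by
        rw [hal]
        nlinarith
      calc (al + 1) * ((1 + al * n) * d) = ((al + 1) * (1 + al * n)) * d := by ring
        _ < P * d := mul_lt_mul_of_pos_right this hd
        _ = 1 := hPd

theorem def_one (d : ℝ) (h1 : 1115 / 10000 ≤ d) (h2 : d ≤ 128 / 1000) : Def d := by
  have hal : al = 359 / 200 := rfl
  apply def_of d (by linarith) 1 le_rfl
  · push_cast; linarith
  · rw [hal]; push_cast; linarith

theorem def_two (d : ℝ) (h1 : 673 / 10000 ≤ d) (h2 : d ≤ 779 / 10000) : Def d := by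
  have hal : al = 359 / 200 := rfl
  apply def_of d (by linarith) 2 (by norm_num)
  · push_cast; linarith
  · rw [hal]; push_cast; linarith

theorem def_three (d : ℝ) (h1 : 5 / 100 ≤ d) (h2 : d ≤ 56 / 1000) : Def d := by
  have hal : al = 359 / 200 := rfl
  apply def_of d (by linarith) 3 (by norm_num)
  · push_cast; linarith
  · rw [hal]; push_cast; linarith

theorem deficits (δ : ℝ) (h0 : 0 < δ) (h1 : δ < 205 / 1000) :
    ∃ d e : ℝ, d + e = δ ∧ Def d ∧ Def e := by
  rcases le_or_gt δ (7 / 100) with h2 | h2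
  · exact ⟨δ / 2, δ / 2, by ring, def_small _ (by linarith) (by linarith),
      def_small _ (by linarith) (by linarith)⟩
  rcases le_or_gt δ (113 / 1000) with h3 | h3
  · exact ⟨673 / 10000 + 24 / 100 * (δ - 7 / 100), 27 / 10000 + 76 / 100 * (δ - 7 / 100),
      by ring, def_two _ (by linarith) (by linarith), def_small _ (by linarith) (by linarith)⟩
  rcases le_or_gt δ (163 / 1000) with h4 | h4
  · exact ⟨1115 / 10000 + 32 / 100 * (δ - 113 / 1000), 15 / 10000 + 68 / 100 * (δ - 113 / 1000),
      by ring, def_one _ (by linarith) (by linarith), def_small _ (by linarith) (by linarith)⟩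
  rcases le_or_gt δ (18 / 100) with h5 | h5
  · exact ⟨113 / 1000 + 7 / 10 * (δ - 163 / 1000), 5 / 100 + 3 / 10 * (δ - 163 / 1000),
      by ring, def_one _ (by linarith) (by linarith), def_three _ (by linarith) (by linarith)⟩
  · exact ⟨112 / 1000 + 64 / 100 * (δ - 18 / 100), 68 / 1000 + 36 / 100 * (δ - 18 / 100),
      by ring, def_one _ (by linarith) (by linarith), def_two _ (by linarith) (by linarith)⟩

theorem Def.col {d : ℝ} (h : Def d) (H : ℝ) (hH : 0 < H) :
    ∃ n : ℕ, 1 ≤ n ∧ ∃ w v : ℝ, ColOK w v H n ∧ w + v = H * (1 - d) := by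
  obtain ⟨hd, n, hn, y, h1, h2, h3, h4⟩ := h
  refine ⟨n, hn, H * (1 - y), H * (y - d), ?_, by ring⟩
  have hal : al = 359 / 200 := rfl
  have hn' : (1 : ℝ) ≤ n := by exact_mod_cast hn
  have hy : 0 < y := by linarith
  have hdy : d < y := by
    have : d ≤ (1 + al * n) * d := by
      rw [hal]
      nlinarith
    linarith
  have e1 : H - H * (1 - y) = H * y := by ring
  have e2 : H - H * (1 - y) - H * (y - d) = H * d := by ring
  refine ⟨?_, ?_, ?_, ?_, ?_, ?_, ?_⟩
  · apply mul_pos hH
    rw [hal] at h2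
    linarith
  · apply mul_pos hH
    linarith
  · rw [e1]
    have : H * ((al + 1) * y) < H * 1 := mul_lt_mul_of_pos_left h2 hH
    linarith
  · rw [e1]
    have : H * 1 < H * (3 * y) := mul_lt_mul_of_pos_left h1 hH
    linarith
  · rw [e2]
    have : H * ((1 + al * n) * d) < H * y := mul_lt_mul_of_pos_left h3 hH
    linarith
  · rw [e2]
    have : H * y < H * ((1 + 2 * n) * d) := mul_lt_mul_of_pos_left h4 hH
    linarith
  · rw [e2]
    exact mul_pos hH hd

/-! ### generic parameters -/

theorem finite_bad (a c : Fin 6 → ℝ) (hc0 : ∀ k, c k ≠ 0) (hc : Function.Injective c)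
    (F : Finset ℝ) :
    {e : ℝ | (∃ k, a k + c k * e ∈ F) ∨ (∃ k l, k ≠ l ∧ a k + c k * e = a l + c l * e)}.Finite := by
  have h1 : {e : ℝ | ∃ k, a k + c k * e ∈ F}.Finite := by
    have : {e : ℝ | ∃ k, a k + c k * e ∈ F} = ⋃ k, {e : ℝ | a k + c k * e ∈ F} := by
      ext e; simp
    rw [this]
    apply Set.finite_iUnion
    intro k
    have : {e : ℝ | a k + c k * e ∈ F} = (fun e => a k + c k * e) ⁻¹' (F : Set ℝ) := rfl
    rw [this]
    apply Set.Finite.preimage _ F.finite_toSet
    intro x _ y _ hxy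
    have hxy' : a k + c k * x = a k + c k * y := hxy
    exact mul_left_cancel₀ (hc0 k) (by linarith)
  have h2 : {e : ℝ | ∃ k l, k ≠ l ∧ a k + c k * e = a l + c l * e}.Finite := by
    have : {e : ℝ | ∃ k l, k ≠ l ∧ a k + c k * e = a l + c l * e} =
        ⋃ k, ⋃ l, {e : ℝ | k ≠ l ∧ a k + c k * e = a l + c l * e} := by
      ext e; simp
    rw [this]
    apply Set.finite_iUnion
    intro k
    apply Set.finite_iUnion
    intro l
    apply Set.Subsingleton.finite
    rintro x ⟨hkl, hx⟩ y ⟨_, hy⟩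
    have hne : c k - c l ≠ 0 := sub_ne_zero.2 (fun h => hkl (hc h))
    apply mul_left_cancel₀ hne
    linarith
  exact (h1.union h2).subset (fun e he => he)

open Classical in
theorem step (z b H : ℝ) (hR : Base (z, b, H)) (F : Finset ℝ) :
    ∃ (T : Finset Tile) (L : Finset Rect), Ref (CR (z, b, H)) (OR (z, b, H)) T L ∧
      (∀ t ∈ T, sz t ∉ F ∧ 0 < sz t ∧ sz t < H) ∧
      (∀ s ∈ T, ∀ t ∈ T, sz s = sz t → s = t) ∧
      (∀ R ∈ L, Base R ∧ R.2.2 ≤ H / 2) := by
  obtain ⟨hH, hb1, hb2⟩ := hR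
  have hH' : 0 < H := hH
  have hb1' : al * H < b := hb1
  have hb2' : b < 2 * H := hb2
  have hal : al = 359 / 200 := rfl
  obtain ⟨d, e, hde, hd, he⟩ := deficits (2 - b / H)
    (by rw [sub_pos, div_lt_iff₀ hH']; exact hb2')
    (by
      have : al < b / H := by rw [lt_div_iff₀ hH']; exact hb1'
      rw [hal] at this
      linarith)
  obtain ⟨n, hn, w, v, hwv, hsum⟩ := hd.col H hH'
  obtain ⟨m, hm, w', v', hwv', hsum'⟩ := he.col H hH'
  have hbsum : (w + v) + (w' + v') = b := by
    rw [hsum, hsum']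
    have : d + e = 2 - b / H := hde
    have h2 : H * (1 - d) + H * (1 - e) = H * (2 - (d + e)) := by ring
    rw [h2, this]
    field_simp
    ring
  -- generic perturbation
  let a : Fin 6 → ℝ := ![w, v, w', v', w + v, w' + v']
  let c : Fin 6 → ℝ := ![1, 2, -7, 4, 3, -3]
  have hc0 : ∀ k, c k ≠ 0 := by
    intro k
    fin_cases k <;> simp [c]
  have hc : Function.Injective c := by
    intro k l hkl
    fin_cases k <;> fin_cases l <;> first | rfl | (exfalso; revert hkl; simp [c]; try norm_num)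
  have hfin := finite_bad a c hc0 hc F
  have hev := (hwv.eventually 1 2).and (hwv'.eventually (-7) 4)
  have hinf : {e : ℝ | ColOK (w + 1 * e) (v + 2 * e) H n ∧
      ColOK (w' + -7 * e) (v' + 4 * e) H m}.Infinite := infinite_of_mem_nhds (0 : ℝ) hev
  obtain ⟨ε, hε, hε2⟩ := hinf.exists_notMem_finite hfin
  simp only [Set.mem_ofPred_eq, not_or, not_exists, not_and] at hε2
  obtain ⟨hg1, hg2⟩ := hε2
  obtain ⟨hA, hB⟩ := hε
  set W := w + 1 * ε with hW
  set V := v + 2 * ε with hV
  set W' := w' + -7 * ε with hW'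
  set V' := v' + 4 * ε with hV'
  have hbs : (W + V) + (W' + V') = b := by
    rw [hW, hV, hW', hV', ← hbsum]; ring
  have sizes : ∀ k : Fin 6, a k + c k * ε = ![W, V, W', V', W + V, W' + V'] k := by
    intro k
    fin_cases k <;> simp [a, c, hW, hV, hW', hV'] <;> ring
  have hinj : ∀ k l : Fin 6, ![W, V, W', V', W + V, W' + V'] k = ![W, V, W', V', W + V, W' + V'] l →
      k = l := by
    intro k l hkl
    by_contra hne
    apply hg2 k l hne
    rw [sizes k, sizes l]
    exact hkl
  have hnF : ∀ k : Fin 6, ![W, V, W', V', W + V, W' + V'] k ∉ F := by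
    intro k
    have := hg1 k
    rwa [sizes k] at this
  obtain ⟨L1, hL1, hL1'⟩ := colRef hn z hA
  obtain ⟨L2, hL2, hL2'⟩ := colRef hm (z + (W + V)) hB
  have hu1 : 0 < W + V := by linarith [hA.1, hA.2.1]
  have hu2 : 0 < W' + V' := by linarith [hB.1, hB.2.1]
  have hcut := Ref.cut z (W + V) (W' + V') H hu1 hu2
  rw [hbs] at hcut
  have hnot : ((z, W + V, H) : Rect) ∉ ({(z + (W + V), W' + V', H)} : Finset Rect) := by
    rw [Finset.mem_singleton]
    intro h'
    have := congrArg Prod.fst h'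
    simp at this
    linarith
  have hrep := Ref.replace hcut hnot hL1
  rw [Finset.union_comm L1, ← Finset.insert_eq] at hrep
  have hnot2 : ((z + (W + V), W' + V', H) : Rect) ∉ L1 := by
    intro h'
    have := (hL1' _ h').2
    have h2 : H ≤ H / 2 := this
    linarith
  have hrep2 := Ref.replace hrep hnot2 hL2
  let τ : Fin 6 → Tile := ![(false, z + V + W, H - W, W), (false, z + V, H - W - V, V),
    (false, z + (W + V) + V' + W', H - W', W'), (false, z + (W + V) + V', H - W' - V', V'),
    (true, z, H, W + V), (true, z + (W + V), H, W' + V')]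
  have hsz : ∀ k, sz (τ k) = ![W, V, W', V', W + V, W' + V'] k := by
    intro k
    fin_cases k <;> simp [τ, sz]
  have hτ : ∀ t ∈ ((∅ : Finset Tile) ∪ {(true, z, H, W + V), (false, z + V + W, H - W, W),
      (false, z + V, H - W - V, V)}) ∪ {(true, z + (W + V), H, W' + V'),
      (false, z + (W + V) + V' + W', H - W', W'), (false, z + (W + V) + V', H - W' - V', V')},
      ∃ k, t = τ k := by
    intro t ht
    simp only [Finset.empty_union, Finset.mem_union, Finset.mem_insert,
      Finset.mem_singleton] at ht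
    rcases ht with (rfl | rfl | rfl) | (rfl | rfl | rfl)
    · exact ⟨4, rfl⟩
    · exact ⟨0, rfl⟩
    · exact ⟨1, rfl⟩
    · exact ⟨5, rfl⟩
    · exact ⟨2, rfl⟩
    · exact ⟨3, rfl⟩
  refine ⟨_, _, hrep2, ?_, ?_, ?_⟩
  · intro t ht
    obtain ⟨k, rfl⟩ := hτ t ht
    rw [hsz k]
    refine ⟨hnF k, ?_, ?_⟩
    · have := hA.1
      have := hA.2.1
      have := hB.1
      have := hB.2.1
      fin_cases k <;> simp <;> linarith
    · have := hA.1
      have := hA.2.1
      have := hB.1
      have := hB.2.1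
      have := hA.2.2.2.2.2.2
      have := hB.2.2.2.2.2.2
      fin_cases k <;> simp <;> linarith
  · intro s hs t ht hst
    obtain ⟨k, rfl⟩ := hτ s hs
    obtain ⟨l, rfl⟩ := hτ t ht
    rw [hsz k, hsz l] at hst
    rw [hinj k l hst]
  · intro R hR
    rcases Finset.mem_union.1 hR with h' | h'
    · exact hL2' R h'
    · exact hL1' R h'

end Pool.Agent.H443R3.TT
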