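import Mathlib
import Pool.Agent.H443R3.TT.Step

set_option autoImplicit false

namespace Pool.Agent.H443R3.TT

open Filter Topology

theorem Base.nonempty {R : Rect} (h : Base R) : (OR R).Nonempty := by
  obtain ⟨z, b, H⟩ := R
  obtain ⟨h1, h2, h3⟩ := h
  have h1' : 0 < H := h1
  have h2' : al * H < b := h2
  have hal : al = 359 / 200 := rfl
  have hb : 0 < b := lt_trans (by rw [hal]; positivity) h2'
  exact ⟨(z + b / 2, H / 2), by rw [mem_OR]; refine ⟨?_, ?_, ?_, ?_⟩ <;> simp <;> linarith⟩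

open Classical in
theorem gen (C O : Set (ℝ × ℝ)) (h : ℝ) (Lp : Finset Rect) :
    ∀ (T : Finset Tile) (Ld : Finset Rect), Ref C O T (Lp ∪ Ld) → (∀ R ∈ Lp, R ∉ Ld) →
      (∀ R ∈ Lp, Base R ∧ R.2.2 ≤ h) → (∀ R ∈ Ld, Base R ∧ R.2.2 ≤ h / 2) →
      (∀ s ∈ T, ∀ t ∈ T, sz s = sz t → s = t) →
      ∃ (T' : Finset Tile) (L' : Finset Rect), Ref C O T' L' ∧ T ⊆ T' ∧
        (∀ s ∈ T', ∀ t ∈ T', sz s = sz t → s = t) ∧
        (∀ R ∈ L', Base R ∧ R.2.2 ≤ h / 2) ∧ (∀ t ∈ T', t ∈ T ∨ (0 < sz t ∧ sz t < h)) := by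
  induction Lp using Finset.induction_on with
  | empty =>
    intro T Ld hRef _ _ hLd hT
    rw [Finset.empty_union] at hRef
    exact ⟨T, Ld, hRef, subset_rfl, hT, hLd, fun t ht => Or.inl ht⟩
  | insert R Lp hR ih =>
    intro T Ld hRef hdis hLp hLd hT
    have hRLd : R ∉ Ld := hdis R (Finset.mem_insert_self _ _)
    have hRb := hLp R (Finset.mem_insert_self _ _)
    obtain ⟨z, b, H⟩ := R
    obtain ⟨T1, L1, hRef1, hT1, hT1inj, hL1⟩ := step z b H hRb.1 (T.image sz)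
    rw [Finset.insert_union] at hRef
    have hnot : ((z, b, H) : Rect) ∉ Lp ∪ Ld := by
      rw [Finset.mem_union]
      tauto
    have hrep := Ref.replace hRef hnot hRef1
    have hset : L1 ∪ (Lp ∪ Ld) = Lp ∪ (L1 ∪ Ld) := by
      ext x
      simp only [Finset.mem_union]
      tauto
    rw [hset] at hrep
    have hHh : H ≤ h := hRb.2
    have g1 : ∀ R' ∈ Lp, R' ∉ L1 ∪ Ld := by
      intro R' hR' hmem
      rcases Finset.mem_union.1 hmem with h6 | h6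
      · have hsub : OR R' ⊆ OR (z, b, H) := hRef1.subR R' h6
        have hne : ((z, b, H) : Rect) ≠ R' := by
          rintro rfl
          exact hR hR'
        have hd : Disjoint (OR (z, b, H)) (OR R') :=
          hRef.dRR _ (Finset.mem_insert_self _ _) R'
            (Finset.mem_insert_of_mem (Finset.mem_union_left _ hR')) hne
        obtain ⟨p, hp⟩ := (hLp R' (Finset.mem_insert_of_mem hR')).1.nonempty
        exact Set.disjoint_left.1 hd (hsub hp) hp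
      · exact hdis R' (Finset.mem_insert_of_mem hR') h6
    have g2 : ∀ R' ∈ Lp, Base R' ∧ R'.2.2 ≤ h := by
      intro R' hR'
      exact hLp R' (Finset.mem_insert_of_mem hR')
    have g3 : ∀ R' ∈ L1 ∪ Ld, Base R' ∧ R'.2.2 ≤ h / 2 := by
      intro R' hR'
      rcases Finset.mem_union.1 hR' with h6 | h6
      · refine ⟨(hL1 R' h6).1, (hL1 R' h6).2.trans (by linarith)⟩
      · exact hLd R' h6
    have g4 : ∀ s ∈ T ∪ T1, ∀ t ∈ T ∪ T1, sz s = sz t → s = t := by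
      intro s hs t ht hst
      rcases Finset.mem_union.1 hs with hs | hs <;> rcases Finset.mem_union.1 ht with ht | ht
      · exact hT s hs t ht hst
      · exfalso
        exact (hT1 t ht).1 (hst ▸ Finset.mem_image_of_mem sz hs)
      · exfalso
        exact (hT1 s hs).1 (hst ▸ Finset.mem_image_of_mem sz ht)
      · exact hT1inj s hs t ht hst
    obtain ⟨T', L', h1, h2, h3, h4, h5⟩ := ih (T ∪ T1) (L1 ∪ Ld) hrep g1 g2 g3 g4
    refine ⟨T', L', h1, Finset.subset_union_left.trans h2, h3, h4, ?_⟩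
    intro t ht
    rcases h5 t ht with h6 | h6
    · rcases Finset.mem_union.1 h6 with h7 | h7
      · exact Or.inl h7
      · exact Or.inr ⟨(hT1 t h7).2.1, lt_of_lt_of_le (hT1 t h7).2.2 hHh⟩
    · exact Or.inr h6

/-- the invariant of the construction -/
def Inv (C O : Set (ℝ × ℝ)) (n : ℕ) (x : Finset Tile × Finset Rect) : Prop :=
  Ref C O x.1 x.2 ∧ (∀ s ∈ x.1, ∀ t ∈ x.1, sz s = sz t → s = t) ∧
    (∀ R ∈ x.2, Base R ∧ R.2.2 ≤ 35 / 2 ^ n) ∧ (∀ t ∈ x.1, 0 < sz t ∧ sz t < 88)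

theorem Inv.next {C O : Set (ℝ × ℝ)} {n : ℕ} {x : Finset Tile × Finset Rect} (h : Inv C O n x) :
    ∃ y, Inv C O (n + 1) y ∧ x.1 ⊆ y.1 := by
  classical
  obtain ⟨h1, h2, h3, h4⟩ := h
  obtain ⟨T', L', k1, k2, k3, k4, k5⟩ := gen C O (35 / 2 ^ n) x.2 x.1 ∅ (by simpa using h1)
    (by simp) h3 (by simp) h2
  refine ⟨(T', L'), ⟨k1, k3, ?_, ?_⟩, k2⟩
  · intro R hR
    refine ⟨(k4 R hR).1, (k4 R hR).2.trans (le_of_eq ?_)⟩
    rw [pow_succ]
    field_simp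
  · intro t ht
    rcases k5 t ht with h6 | h6
    · exact h4 t h6
    · refine ⟨h6.1, h6.2.trans_le ?_⟩
      have : (35 : ℝ) / 2 ^ n ≤ 35 := div_le_self (by norm_num) (one_le_pow₀ (by norm_num))
      linarith

/-- the infinite family of tiles filling a region -/
theorem inner {C O : Set (ℝ × ℝ)} {x : Finset Tile × Finset Rect} (h : Inv C O 0 x) :
    ∃ S : Set Tile, S.Countable ∧ (∀ t ∈ x.1, t ∈ S) ∧ (∀ p ∈ C, 0 < p.2 → ∃ t ∈ S, p ∈ Cl t) ∧
      (∀ t ∈ S, Op t ⊆ O) ∧ (∀ s ∈ S, ∀ t ∈ S, s ≠ t → Disjoint (Op s) (Op t)) ∧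
      (∀ s ∈ S, ∀ t ∈ S, sz s = sz t → s = t) ∧ (∀ t ∈ S, 0 < sz t ∧ sz t < 88) := by
  classical
  let st : (n : ℕ) → {y : Finset Tile × Finset Rect // Inv C O n y} := fun n =>
    Nat.rec (motive := fun n => {y : Finset Tile × Finset Rect // Inv C O n y}) ⟨x, h⟩
      (fun n y => ⟨y.2.next.choose, y.2.next.choose_spec.1⟩) n
  have hst : ∀ n, (st n).1.1 ⊆ (st (n + 1)).1.1 := fun n => (st n).2.next.choose_spec.2
  have hmono : Monotone (fun n => (st n).1.1) := monotone_nat_of_le_succ hst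
  have both : ∀ s t : Tile, (∃ n, s ∈ (st n).1.1) → (∃ n, t ∈ (st n).1.1) →
      ∃ n, s ∈ (st n).1.1 ∧ t ∈ (st n).1.1 := by
    rintro s t ⟨n, hn⟩ ⟨m, hm⟩
    exact ⟨max n m, hmono (le_max_left n m) hn, hmono (le_max_right n m) hm⟩
  refine ⟨{t | ∃ n, t ∈ (st n).1.1}, ?_, ?_, ?_, ?_, ?_, ?_, ?_⟩
  · have : {t : Tile | ∃ n, t ∈ (st n).1.1} = ⋃ n, ((st n).1.1 : Set Tile) := by
      ext t; simp
    rw [this]
    exact Set.countable_iUnion fun n => (st n).1.1.countable_toSet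
  · intro t ht
    exact ⟨0, ht⟩
  · intro p hp h0
    obtain ⟨n, hn⟩ : ∃ n : ℕ, 35 / 2 ^ n < p.2 := by
      obtain ⟨n, hn⟩ := pow_unbounded_of_one_lt (35 / p.2) (by norm_num : (1 : ℝ) < 2)
      refine ⟨n, ?_⟩
      rw [div_lt_iff₀ h0] at hn
      rw [div_lt_iff₀ (by positivity)]
      linarith
    obtain ⟨k1, k2, k3, k4⟩ := (st n).2
    rcases k1.cover p hp h0 with ⟨t, ht, hpt⟩ | ⟨R, hR, hpR⟩
    · exact ⟨t, ⟨n, ht⟩, hpt⟩
    · exfalso
      have := (k3 R hR).2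
      have h5 : p.2 ≤ R.2.2 := hpR.2.2.2
      linarith
  · rintro t ⟨n, hn⟩
    exact (st n).2.1.subT t hn
  · rintro s hs t ht hst
    obtain ⟨n, h1, h2⟩ := both s t hs ht
    exact (st n).2.1.dTT s h1 t h2 hst
  · rintro s hs t ht hst
    obtain ⟨n, h1, h2⟩ := both s t hs ht
    exact (st n).2.2.1 s h1 t h2 hst
  · rintro t ⟨n, hn⟩
    exact (st n).2.2.2.2 t hn

end Pool.Agent.H443R3.TT
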