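import Mathlib
import Pool.Agent.H443R3.TT.Inner

set_option autoImplicit false

namespace Pool.Agent.H443R3.TT

open Filter Topology

noncomputable def g : ℕ → ℝ
  | 0 => 0
  | 1 => 12
  | 2 => 35
  | 3 => 88
  | 4 => 88
  | 5 => 88
  | (n + 6) => g (n + 5) + g (n + 1)

noncomputable def f : ℕ → ℝ × ℝ → ℝ
  | 0 => fun p => -p.1
  | 1 => fun p => p.2 - p.1
  | (n + 2) => fun p => f (n + 1) p - f n p

theorem g_rec (n : ℕ) : g (n + 6) = g (n + 5) + g (n + 1) := by rw [g]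
theorem f_rec (n : ℕ) (p : ℝ × ℝ) : f (n + 2) p = f (n + 1) p - f n p := by rw [f]

theorem f3 (n : ℕ) (p : ℝ × ℝ) : f (n + 3) p = - f n p := by
  rw [f_rec (n + 1), f_rec n]; ring
theorem f4 (n : ℕ) (p : ℝ × ℝ) : f (n + 4) p = - f (n + 1) p := f3 (n + 1) p
theorem f5 (n : ℕ) (p : ℝ × ℝ) : f (n + 5) p = f n p - f (n + 1) p := by
  rw [f3 (n + 2), f_rec n]; ring
theorem f6 (n : ℕ) (p : ℝ × ℝ) : f (n + 6) p = f n p := by
  rw [f3 (n + 3), f3 n]; ring

theorem g0 : g 0 = 0 := by simp [g]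
theorem g1 : g 1 = 12 := by simp [g]
theorem g2 : g 2 = 35 := by simp [g]
theorem g3 : g 3 = 88 := by simp [g]
theorem g4 : g 4 = 88 := by simp [g]
theorem g5 : g 5 = 88 := by simp [g]
theorem g6 : g 6 = 100 := by rw [g_rec, g5, g1]; norm_num

theorem g_pos (n : ℕ) : 12 ≤ g (n + 1) := by
  induction n using Nat.strong_induction_on with
  | _ n ih =>
    rcases lt_or_ge n 5 with h | h
    · interval_cases n <;> norm_num [g1, g2, g3, g4, g5]
    · obtain ⟨m, rfl⟩ : ∃ m, n = m + 5 := ⟨n - 5, by omega⟩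
      have h1 := ih (m + 4) (by omega)
      have h2 := ih m (by omega)
      have : g (m + 5 + 1) = g (m + 4 + 1) + g (m + 1) := g_rec m
      linarith

theorem g_nonneg (n : ℕ) : 0 ≤ g n := by
  rcases n with _ | n
  · rw [g0]
  · linarith [g_pos n]

theorem g_mono3 (n : ℕ) : g (n + 3) ≤ g (n + 4) := by
  rcases n with _ | _ | n
  · rw [g3, g4]
  · show g 4 ≤ g 5
    rw [g4, g5]
  · have : g (n + 6) = g (n + 5) + g (n + 1) := g_rec n
    show g (n + 5) ≤ g (n + 6)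
    linarith [g_pos n]

theorem g_mono {m n : ℕ} (hm : 3 ≤ m) (hmn : m ≤ n) : g m ≤ g n := by
  induction n, hmn using Nat.le_induction with
  | base => exact le_rfl
  | succ n hn ih =>
    obtain ⟨k, rfl⟩ : ∃ k, n = k + 3 := ⟨n - 3, by omega⟩
    exact ih.trans (g_mono3 k)

theorem gA (n : ℕ) : g (n + 1) < g n + g (n + 2) := by
  rcases lt_or_ge n 2 with h | h
  · interval_cases n
    · rw [g0, g1, g2]; norm_num
    · rw [g1, g2, g3]; norm_num
  · obtain ⟨k, rfl⟩ : ∃ k, n = k + 2 := ⟨n - 2, by omega⟩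
    have h1 := g_mono3 k
    have h2 := g_pos (k + 1)
    have e1 : g (k + 2 + 1) = g (k + 3) := rfl
    have e2 : g (k + 2 + 2) = g (k + 4) := rfl
    rw [e1, e2]
    have e3 : g (k + 1 + 1) = g (k + 2) := rfl
    rw [e3] at h2
    linarith

theorem gB (n : ℕ) : g (n + 5) = g (n + 4) + g n := by
  rcases n with _ | n
  · show g 5 = g 4 + g 0
    rw [g5, g4, g0]; norm_num
  · exact g_rec n

/-- the size of the `n`-th tile of the spiral -/
noncomputable def ts (n : ℕ) : ℝ := g (n + 6) - g n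

theorem ts_lt (n : ℕ) : ts n < ts (n + 1) := by
  unfold ts
  have h1 : g (n + 1 + 6) = g (n + 6) + g (n + 2) := g_rec (n + 1)
  have h2 := gA n
  linarith

theorem ts_strictMono : StrictMono ts := strictMono_nat_of_lt_succ ts_lt

theorem ts_ge (n : ℕ) : 100 ≤ ts n := by
  have h0 : ts 0 = 100 := by
    unfold ts
    show g 6 - g 0 = 100
    rw [g6, g0]; norm_num
  rw [← h0]
  exact ts_strictMono.monotone (Nat.zero_le n)

/-- the union of all tiles placed before step `n` of the spiral -/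
def PP (n : ℕ) : Set (ℝ × ℝ) :=
  {p | f n p ≤ g n ∧ f (n + 1) p ≤ g (n + 1) ∧ f (n + 2) p ≤ g (n + 2) ∧ f (n + 3) p ≤ g (n + 3) ∧
    f (n + 4) p ≤ g (n + 4) ∧ f (n + 5) p ≤ g (n + 5)}

def TC (n : ℕ) : Set (ℝ × ℝ) := {p | g n ≤ f n p ∧ f (n + 5) p ≤ g (n + 5) ∧ f (n + 1) p ≤ g (n + 1)}
def TO (n : ℕ) : Set (ℝ × ℝ) := {p | g n < f n p ∧ f (n + 5) p < g (n + 5) ∧ f (n + 1) p < g (n + 1)}

theorem PP_succ (n : ℕ) : PP n ⊆ PP (n + 1) := by
  rintro p ⟨h0, h1, h2, h3, h4, h5⟩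
  refine ⟨h1, h2, h3, h4, h5, ?_⟩
  show f (n + 6) p ≤ g (n + 6)
  rw [f6]
  have := ts_ge n
  unfold ts at this
  linarith

theorem PP_mono : Monotone PP := monotone_nat_of_le_succ PP_succ

theorem PP_split (n : ℕ) (p : ℝ × ℝ) (hp : p ∈ PP (n + 1)) : p ∈ PP n ∨ p ∈ TC n := by
  obtain ⟨h1, h2, h3, h4, h5, h6⟩ := hp
  rcases le_total (f n p) (g n) with h | h
  · exact Or.inl ⟨h, h1, h2, h3, h4, h5⟩
  · exact Or.inr ⟨h, h5, h1⟩

theorem TO_sub (n : ℕ) : TO n ⊆ PP (n + 1) := by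
  rintro p ⟨h0, h5, h1⟩
  have e2 : f (n + 2) p = f (n + 1) p - f n p := f_rec n p
  have e3 := f3 n p
  have e4 := f4 n p
  have e5 := f5 n p
  have e6 := f6 n p
  have a := gA n
  have b := gB n
  have gn := g_nonneg n
  have gn3 := g_nonneg (n + 3)
  have grec := g_rec n
  refine ⟨h1.le, ?_, ?_, ?_, h5.le, ?_⟩
  · show f (n + 2) p ≤ g (n + 2)
    linarith
  · show f (n + 3) p ≤ g (n + 3)
    linarith
  · show f (n + 4) p ≤ g (n + 4)
    linarith
  · show f (n + 6) p ≤ g (n + 6)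
    linarith

theorem TO_disj (n : ℕ) : Disjoint (TO n) (PP n) := by
  rw [Set.disjoint_left]
  rintro p ⟨h0, _, _⟩ ⟨k0, _⟩
  linarith

theorem f_bound (n : ℕ) (p : ℝ × ℝ) : f n p ≤ |p.1| + |p.2| ∧ -(|p.1| + |p.2|) ≤ f n p ∧
    f (n + 1) p ≤ |p.1| + |p.2| ∧ -(|p.1| + |p.2|) ≤ f (n + 1) p ∧
    f (n + 1) p - f n p ≤ |p.1| + |p.2| ∧ -(|p.1| + |p.2|) ≤ f (n + 1) p - f n p := by
  induction n with
  | zero =>
    have h1 := le_abs_self p.1
    have h2 := neg_abs_le p.1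
    have h3 := le_abs_self p.2
    have h4 := neg_abs_le p.2
    have e0 : f 0 p = -p.1 := rfl
    have e1 : f (0 + 1) p = p.2 - p.1 := rfl
    rw [e0, e1]
    refine ⟨?_, ?_, ?_, ?_, ?_, ?_⟩ <;> linarith [abs_nonneg p.1, abs_nonneg p.2]
  | succ n ih =>
    obtain ⟨h1, h2, h3, h4, h5, h6⟩ := ih
    have e : f (n + 1 + 1) p = f (n + 1) p - f n p := f_rec n p
    rw [e]
    refine ⟨h3, h4, h5, h6, ?_, ?_⟩ <;> linarith

theorem g_large (n : ℕ) : 12 * (n : ℝ) ≤ g (n + 5) := by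
  induction n with
  | zero => rw [show 0 + 5 = 5 from rfl, g5]; norm_num
  | succ n ih =>
    have h : g (n + 1 + 5) = g (n + 5) + g (n + 1) := g_rec n
    rw [h]
    push_cast
    linarith [g_pos n]

theorem exists_PP (p : ℝ × ℝ) : ∃ n, p ∈ PP n := by
  obtain ⟨N, hN⟩ := exists_nat_ge (|p.1| + |p.2|)
  have hb : ∀ i, |p.1| + |p.2| ≤ g (N + 5 + i) := by
    intro i
    have h1 : g (N + 5) ≤ g (N + 5 + i) := g_mono (by omega) (by omega)
    have h2 := g_large N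
    have h3 : (0 : ℝ) ≤ N := Nat.cast_nonneg N
    linarith
  refine ⟨N + 5, ?_, ?_, ?_, ?_, ?_, ?_⟩
  · exact (f_bound _ p).1.trans (hb 0)
  · exact (f_bound _ p).1.trans (hb 1)
  · exact (f_bound _ p).1.trans (hb 2)
  · exact (f_bound _ p).1.trans (hb 3)
  · exact (f_bound _ p).1.trans (hb 4)
  · exact (f_bound _ p).1.trans (hb 5)

theorem outer_cover (p : ℝ × ℝ) : p ∈ PP 0 ∨ ∃ n, p ∈ TC n := by
  classical
  by_cases h : p ∈ PP 0
  · exact Or.inl h
  · right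
    have hex := exists_PP p
    have hspec := Nat.find_spec hex
    have hne : Nat.find hex ≠ 0 := by
      intro h0
      rw [h0] at hspec
      exact h hspec
    obtain ⟨m, hm⟩ := Nat.exists_eq_succ_of_ne_zero hne
    have hmin : p ∉ PP m := Nat.find_min hex (by omega)
    rw [hm] at hspec
    rcases PP_split m p hspec with h1 | h1
    · exact absurd h1 hmin
    · exact ⟨m, h1⟩

theorem residue (n : ℕ) :
    ((∀ p, f n p = -p.1) ∧ (∀ p, f (n + 1) p = p.2 - p.1)) ∨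
    ((∀ p, f n p = p.2 - p.1) ∧ (∀ p, f (n + 1) p = p.2)) ∨
    ((∀ p, f n p = p.2) ∧ (∀ p, f (n + 1) p = p.1)) ∨
    ((∀ p, f n p = p.1) ∧ (∀ p, f (n + 1) p = p.1 - p.2)) ∨
    ((∀ p, f n p = p.1 - p.2) ∧ (∀ p, f (n + 1) p = -p.2)) ∨
    ((∀ p, f n p = -p.2) ∧ (∀ p, f (n + 1) p = -p.1)) := by
  induction n with
  | zero => left; exact ⟨fun p => rfl, fun p => rfl⟩
  | succ n ih =>
    have e : ∀ p, f (n + 1 + 1) p = f (n + 1) p - f n p := f_rec n
    rcases ih with ⟨h1, h2⟩ | ⟨h1, h2⟩ | ⟨h1, h2⟩ | ⟨h1, h2⟩ | ⟨h1, h2⟩ | ⟨h1, h2⟩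
    · right; left
      exact ⟨h2, fun p => by rw [e, h1, h2]; ring⟩
    · right; right; left
      exact ⟨h2, fun p => by rw [e, h1, h2]; ring⟩
    · right; right; right; left
      exact ⟨h2, fun p => by rw [e, h1, h2]⟩
    · right; right; right; right; left
      exact ⟨h2, fun p => by rw [e, h1, h2]; ring⟩
    · right; right; right; right; right
      exact ⟨h2, fun p => by rw [e, h1, h2]; ring⟩
    · left
      exact ⟨h2, fun p => by rw [e, h1, h2]; ring⟩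

theorem exists_tile (n : ℕ) : ∃ t : Tile, (∀ p, p ∈ Cl t ↔ p ∈ TC n) ∧
    (∀ p, p ∈ Op t ↔ p ∈ TO n) ∧ sz t = ts n := by
  have e5 := f5 n
  have hs : ts n = g (n + 5) + g (n + 1) - g n := by unfold ts; rw [g_rec]
  rcases residue n with ⟨h1, h2⟩ | ⟨h1, h2⟩ | ⟨h1, h2⟩ | ⟨h1, h2⟩ | ⟨h1, h2⟩ | ⟨h1, h2⟩
  · refine ⟨(false, -g n, -g (n + 5), g (n + 5) + g (n + 1) - g n), ?_, ?_, hs.symm⟩
    · intro p
      rw [mem_Cl_f]
      simp only [TC, Set.mem_ofPred_eq, e5, h1, h2]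
      constructor
      · rintro ⟨a, b, c⟩; refine ⟨?_, ?_, ?_⟩ <;> linarith
      · rintro ⟨a, b, c⟩; refine ⟨?_, ?_, ?_⟩ <;> linarith
    · intro p
      rw [mem_Op_f]
      simp only [TO, Set.mem_ofPred_eq, e5, h1, h2]
      constructor
      · rintro ⟨a, b, c⟩; refine ⟨?_, ?_, ?_⟩ <;> linarith
      · rintro ⟨a, b, c⟩; refine ⟨?_, ?_, ?_⟩ <;> linarith
  · refine ⟨(true, -g (n + 5), g (n + 1), g (n + 5) + g (n + 1) - g n), ?_, ?_, hs.symm⟩
    · intro p
      rw [mem_Cl_t]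
      simp only [TC, Set.mem_ofPred_eq, e5, h1, h2]
      constructor
      · rintro ⟨a, b, c⟩; refine ⟨?_, ?_, ?_⟩ <;> linarith
      · rintro ⟨a, b, c⟩; refine ⟨?_, ?_, ?_⟩ <;> linarith
    · intro p
      rw [mem_Op_t]
      simp only [TO, Set.mem_ofPred_eq, e5, h1, h2]
      constructor
      · rintro ⟨a, b, c⟩; refine ⟨?_, ?_, ?_⟩ <;> linarith
      · rintro ⟨a, b, c⟩; refine ⟨?_, ?_, ?_⟩ <;> linarith
  · refine ⟨(false, g (n + 1), g n, g (n + 5) + g (n + 1) - g n), ?_, ?_, hs.symm⟩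
    · intro p
      rw [mem_Cl_f]
      simp only [TC, Set.mem_ofPred_eq, e5, h1, h2]
      constructor
      · rintro ⟨a, b, c⟩; refine ⟨?_, ?_, ?_⟩ <;> linarith
      · rintro ⟨a, b, c⟩; refine ⟨?_, ?_, ?_⟩ <;> linarith
    · intro p
      rw [mem_Op_f]
      simp only [TO, Set.mem_ofPred_eq, e5, h1, h2]
      constructor
      · rintro ⟨a, b, c⟩; refine ⟨?_, ?_, ?_⟩ <;> linarith
      · rintro ⟨a, b, c⟩; refine ⟨?_, ?_, ?_⟩ <;> linarith
  · refine ⟨(true, g n, g (n + 5), g (n + 5) + g (n + 1) - g n), ?_, ?_, hs.symm⟩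
    · intro p
      rw [mem_Cl_t]
      simp only [TC, Set.mem_ofPred_eq, e5, h1, h2]
      constructor
      · rintro ⟨a, b, c⟩; refine ⟨?_, ?_, ?_⟩ <;> linarith
      · rintro ⟨a, b, c⟩; refine ⟨?_, ?_, ?_⟩ <;> linarith
    · intro p
      rw [mem_Op_t]
      simp only [TO, Set.mem_ofPred_eq, e5, h1, h2]
      constructor
      · rintro ⟨a, b, c⟩; refine ⟨?_, ?_, ?_⟩ <;> linarith
      · rintro ⟨a, b, c⟩; refine ⟨?_, ?_, ?_⟩ <;> linarith
  · refine ⟨(false, g (n + 5), -g (n + 1), g (n + 5) + g (n + 1) - g n), ?_, ?_, hs.symm⟩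
    · intro p
      rw [mem_Cl_f]
      simp only [TC, Set.mem_ofPred_eq, e5, h1, h2]
      constructor
      · rintro ⟨a, b, c⟩; refine ⟨?_, ?_, ?_⟩ <;> linarith
      · rintro ⟨a, b, c⟩; refine ⟨?_, ?_, ?_⟩ <;> linarith
    · intro p
      rw [mem_Op_f]
      simp only [TO, Set.mem_ofPred_eq, e5, h1, h2]
      constructor
      · rintro ⟨a, b, c⟩; refine ⟨?_, ?_, ?_⟩ <;> linarith
      · rintro ⟨a, b, c⟩; refine ⟨?_, ?_, ?_⟩ <;> linarith
  · refine ⟨(true, -g (n + 1), -g n, g (n + 5) + g (n + 1) - g n), ?_, ?_, hs.symm⟩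
    · intro p
      rw [mem_Cl_t]
      simp only [TC, Set.mem_ofPred_eq, e5, h1, h2]
      constructor
      · rintro ⟨a, b, c⟩; refine ⟨?_, ?_, ?_⟩ <;> linarith
      · rintro ⟨a, b, c⟩; refine ⟨?_, ?_, ?_⟩ <;> linarith
    · intro p
      rw [mem_Op_t]
      simp only [TO, Set.mem_ofPred_eq, e5, h1, h2]
      constructor
      · rintro ⟨a, b, c⟩; refine ⟨?_, ?_, ?_⟩ <;> linarith
      · rintro ⟨a, b, c⟩; refine ⟨?_, ?_, ?_⟩ <;> linarith

theorem mem_PP0 (p : ℝ × ℝ) : p ∈ PP 0 ↔ 0 ≤ p.1 ∧ p.2 - p.1 ≤ 12 ∧ p.2 ≤ 35 ∧ p.1 ≤ 88 ∧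
    p.1 - p.2 ≤ 88 ∧ -p.2 ≤ 88 := by
  have e0 : f 0 p = -p.1 := rfl
  have e1 : f 1 p = p.2 - p.1 := rfl
  have e2 : f 2 p = p.2 := by rw [f_rec 0, e1, e0]; ring
  have e3 : f 3 p = p.1 := by rw [f_rec 1, e2, e1]; ring
  have e4 : f 4 p = p.1 - p.2 := by rw [f_rec 2, e3, e2]
  have e5 : f 5 p = -p.2 := by rw [f_rec 3, e4, e3]; ring
  unfold PP
  simp only [Set.mem_ofPred_eq, Nat.zero_add, e0, e1, e2, e3, e4, e5, g0, g1, g2, g3, g4, g5]
  constructor
  · rintro ⟨a, b⟩; exact ⟨by linarith, b⟩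
  · rintro ⟨a, b⟩; exact ⟨by linarith, b⟩

/-- the upper half of the starting pentagon -/
def O0 : Set (ℝ × ℝ) := {p | p ∈ PP 0 ∧ 0 < p.2}

open Classical in
theorem inv0 : Inv (PP 0) O0 0
    (({(false, 23, 12, 23)} : Finset Tile), ({(0, 23, 12), (23, 65, 35)} : Finset Rect)) := by
  refine ⟨⟨?_, ?_, ?_, ?_, ?_, ?_⟩, ?_, ?_, ?_⟩
  · intro p hp h0
    rw [mem_PP0] at hp
    obtain ⟨h1, h2, h3, h4, h5, h6⟩ := hp
    rcases le_total p.1 23 with h | h
    · rcases le_total p.2 12 with h' | h'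
      · right
        exact ⟨(0, 23, 12), by simp, (mem_CR _ _ _ _).2 ⟨h1, by linarith, h0.le, h'⟩⟩
      · left
        exact ⟨(false, 23, 12, 23), by simp, (mem_Cl_f _ _ _ _).2 ⟨h, h', by linarith⟩⟩
    · right
      exact ⟨(23, 65, 35), by simp, (mem_CR _ _ _ _).2 ⟨h, by linarith, h0.le, h3⟩⟩
  · intro t ht p hp
    have ht' : t = (false, 23, 12, 23) := by simpa using ht
    subst ht'
    rw [mem_Op_f] at hp
    obtain ⟨a, b, c⟩ := hp
    refine ⟨(mem_PP0 p).2 ?_, by linarith⟩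
    refine ⟨?_, ?_, ?_, ?_, ?_, ?_⟩ <;> linarith
  · intro R hR p hp
    have hR' : R = (0, 23, 12) ∨ R = (23, 65, 35) := by simpa using hR
    rcases hR' with rfl | rfl
    · rw [mem_OR] at hp
      obtain ⟨a, b, c, d⟩ := hp
      refine ⟨(mem_PP0 p).2 ?_, by linarith⟩
      refine ⟨?_, ?_, ?_, ?_, ?_, ?_⟩ <;> linarith
    · rw [mem_OR] at hp
      obtain ⟨a, b, c, d⟩ := hp
      refine ⟨(mem_PP0 p).2 ?_, by linarith⟩
      refine ⟨?_, ?_, ?_, ?_, ?_, ?_⟩ <;> linarith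
  · intro s hs t ht hst
    have hs' : s = (false, 23, 12, 23) := by simpa using hs
    have ht' : t = (false, 23, 12, 23) := by simpa using ht
    exact absurd (hs'.trans ht'.symm) hst
  · intro s hs R hR
    have hs' : s = (false, 23, 12, 23) := by simpa using hs
    subst hs'
    have hR' : R = (0, 23, 12) ∨ R = (23, 65, 35) := by simpa using hR
    rw [Set.disjoint_left]
    intro p hp hp'
    rw [mem_Op_f] at hp
    rcases hR' with rfl | rfl
    · rw [mem_OR] at hp'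
      linarith [hp.2.1, hp'.2.2.2]
    · rw [mem_OR] at hp'
      linarith [hp.1, hp'.1]
  · have key : Disjoint (OR (0, 23, 12)) (OR (23, 65, 35)) := by
      rw [Set.disjoint_left]
      intro p hp hp'
      rw [mem_OR] at hp hp'
      linarith [hp.2.1, hp'.1]
    intro A hA B hB hAB
    have hA' : A = (0, 23, 12) ∨ A = (23, 65, 35) := by simpa using hA
    have hB' : B = (0, 23, 12) ∨ B = (23, 65, 35) := by simpa using hB
    rcases hA' with rfl | rfl <;> rcases hB' with rfl | rfl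
    · exact absurd rfl hAB
    · exact key
    · exact key.symm
    · exact absurd rfl hAB
  · intro s hs t ht _
    have hs' : s = (false, 23, 12, 23) := by simpa using hs
    have ht' : t = (false, 23, 12, 23) := by simpa using ht
    exact hs'.trans ht'.symm
  · intro R hR
    have hR' : R = (0, 23, 12) ∨ R = (23, 65, 35) := by simpa using hR
    have hal : al = 359 / 200 := rfl
    rcases hR' with rfl | rfl
    · refine ⟨⟨?_, ?_, ?_⟩, ?_⟩ <;> (try rw [hal]) <;> norm_num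
    · refine ⟨⟨?_, ?_, ?_⟩, ?_⟩ <;> (try rw [hal]) <;> norm_num
  · intro t ht
    have ht' : t = (false, 23, 12, 23) := by simpa using ht
    subst ht'
    norm_num [sz]

/-- The tiling in sheared coordinates. -/
theorem exists_tiling : ∃ S : Set Tile, S.Countable ∧ S.Infinite ∧ (∀ t ∈ S, 0 < sz t) ∧
    (∀ s ∈ S, ∀ t ∈ S, sz s = sz t → s = t) ∧ (∀ p : ℝ × ℝ, ∃ t ∈ S, p ∈ Cl t) ∧
    (∀ s ∈ S, ∀ t ∈ S, s ≠ t → Disjoint (Op s) (Op t)) := by
  classical
  obtain ⟨S, hScount, _, hScov, hSsub, hSdis, hSinj, hSsz⟩ := inner inv0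
  choose τ hτC hτO hτs using exists_tile
  let A : Tile := (true, 0, 0, 88)
  have hA : sz A = 88 := rfl
  have hAsub : Op A ⊆ PP 0 := by
    intro p hp
    rw [mem_Op_t] at hp
    obtain ⟨a, b, c⟩ := hp
    rw [mem_PP0]
    refine ⟨?_, ?_, ?_, ?_, ?_, ?_⟩ <;> linarith
  have hAneg : ∀ p ∈ Op A, p.2 < 0 := by
    intro p hp
    rw [mem_Op_t] at hp
    exact hp.2.1
  have hSP : ∀ t ∈ S, Op t ⊆ PP 0 := fun t ht p hp => (hSsub t ht hp).1
  have hττ : ∀ m n, m < n → Disjoint (Op (τ m)) (Op (τ n)) := by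
    intro m n hmn
    rw [Set.disjoint_left]
    intro p hp hp'
    rw [hτO] at hp hp'
    exact Set.disjoint_left.1 (TO_disj n) hp' (PP_mono (by omega : m + 1 ≤ n) (TO_sub m hp))
  have hPτ : ∀ n, Disjoint (PP 0) (Op (τ n)) := by
    intro n
    rw [Set.disjoint_left]
    intro p hp hp'
    rw [hτO] at hp'
    exact Set.disjoint_left.1 (TO_disj n) hp' (PP_mono (Nat.zero_le n) hp)
  have hAS : ∀ t ∈ S, Disjoint (Op A) (Op t) := by
    intro t ht
    rw [Set.disjoint_left]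
    intro p hp hp'
    have h1 := hAneg p hp
    have h2 := (hSsub t ht hp').2
    linarith
  refine ⟨S ∪ ({A} ∪ Set.range τ), ?_, ?_, ?_, ?_, ?_, ?_⟩
  · exact hScount.union ((Set.countable_singleton A).union (Set.countable_range τ))
  · apply Set.Infinite.mono (s := Set.range τ)
    · intro t ht
      exact Or.inr (Or.inr ht)
    · apply Set.infinite_range_of_injective
      intro m n hmn
      apply ts_strictMono.injective
      rw [← hτs, ← hτs, hmn]
  · rintro t (ht | ht | ⟨n, rfl⟩)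
    · exact (hSsz t ht).1
    · rw [Set.mem_singleton_iff] at ht
      rw [ht, hA]
      norm_num
    · rw [hτs]
      linarith [ts_ge n]
  · rintro s (hs | hs | ⟨m, rfl⟩) t (ht | ht | ⟨n, rfl⟩) hst
    · exact hSinj s hs t ht hst
    · exfalso
      rw [Set.mem_singleton_iff] at ht
      rw [ht, hA] at hst
      linarith [(hSsz s hs).2]
    · exfalso
      rw [hτs] at hst
      linarith [(hSsz s hs).2, ts_ge n]
    · exfalso
      rw [Set.mem_singleton_iff] at hs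
      rw [hs, hA] at hst
      linarith [(hSsz t ht).2]
    · rw [Set.mem_singleton_iff] at hs ht
      rw [hs, ht]
    · exfalso
      rw [Set.mem_singleton_iff] at hs
      rw [hs, hA, hτs] at hst
      linarith [ts_ge n]
    · exfalso
      rw [hτs] at hst
      linarith [(hSsz t ht).2, ts_ge m]
    · exfalso
      rw [Set.mem_singleton_iff] at ht
      rw [ht, hA, hτs] at hst
      linarith [ts_ge m]
    · rw [hτs, hτs] at hst
      rw [ts_strictMono.injective hst]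
  · intro p
    rcases outer_cover p with h | ⟨n, h⟩
    · rcases lt_or_ge 0 p.2 with h0 | h0
      · obtain ⟨t, ht, hpt⟩ := hScov p h h0
        exact ⟨t, Or.inl ht, hpt⟩
      · refine ⟨A, Or.inr (Or.inl rfl), ?_⟩
        rw [mem_PP0] at h
        obtain ⟨h1, h2, h3, h4, h5, h6⟩ := h
        rw [mem_Cl_t]
        exact ⟨h1, h0, by linarith⟩
    · exact ⟨τ n, Or.inr (Or.inr ⟨n, rfl⟩), (hτC n p).2 h⟩
  · rintro s (hs | hs | ⟨m, rfl⟩) t (ht | ht | ⟨n, rfl⟩) hst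
    · exact hSdis s hs t ht hst
    · rw [Set.mem_singleton_iff] at ht
      rw [ht]
      exact (hAS s hs).symm
    · exact (hPτ n).mono_left (hSP s hs)
    · rw [Set.mem_singleton_iff] at hs
      rw [hs]
      exact hAS t ht
    · rw [Set.mem_singleton_iff] at hs ht
      exact absurd (hs.trans ht.symm) hst
    · rw [Set.mem_singleton_iff] at hs
      rw [hs]
      exact (hPτ n).mono_left hAsub
    · exact ((hPτ m).mono_left (hSP t ht)).symm
    · rw [Set.mem_singleton_iff] at ht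
      rw [ht]
      exact ((hPτ m).mono_left hAsub).symm
    · rcases lt_trichotomy m n with h | h | h
      · exact hττ m n h
      · exact absurd (by rw [h]) hst
      · exact (hττ n m h).symm

end Pool.Agent.H443R3.TT
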