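import Mathlib
import Pool.Agent.H443R3.TT.Outer

set_option autoImplicit false

namespace Pool.Agent.H443R3.TT

open Filter Topology

/-- the plane -/
abbrev E2 : Type := EuclideanSpace ℝ (Fin 2)

theorem sqrt3_ne : Real.sqrt 3 ≠ 0 := by positivity

/-- the change of coordinates -/
noncomputable def eL : (ℝ × ℝ) ≃ₗ[ℝ] E2 where
  toFun p := !₂[p.1 - p.2 / 2, Real.sqrt 3 / 2 * p.2]
  map_add' p q := by
    ext i
    fin_cases i
    · simp; ring
    · simp; ring
  map_smul' c p := by
    ext i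
    fin_cases i
    · simp; ring
    · simp; ring
  invFun x := (x 0 + x 1 / Real.sqrt 3, 2 * x 1 / Real.sqrt 3)
  left_inv p := by
    have := sqrt3_ne
    ext
    · simp
      field_simp
      ring
    · simp
      field_simp
  right_inv x := by
    have := sqrt3_ne
    ext i
    fin_cases i
    · simp
      field_simp
      ring
    · simp

noncomputable def eC : (ℝ × ℝ) ≃L[ℝ] E2 := eL.toContinuousLinearEquiv

theorem eC_zero (p : ℝ × ℝ) : eC p 0 = p.1 - p.2 / 2 := by
  show (!₂[p.1 - p.2 / 2, Real.sqrt 3 / 2 * p.2] : E2) 0 = _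
  simp

theorem eC_one (p : ℝ × ℝ) : eC p 1 = Real.sqrt 3 / 2 * p.2 := by
  show (!₂[p.1 - p.2 / 2, Real.sqrt 3 / 2 * p.2] : E2) 1 = _
  simp

theorem dist_eC (p q : ℝ × ℝ) (s : ℝ) (hs : 0 ≤ s)
    (h : (p.1 - q.1) ^ 2 - (p.1 - q.1) * (p.2 - q.2) + (p.2 - q.2) ^ 2 = s ^ 2) :
    dist (eC p) (eC q) = s := by
  rw [EuclideanSpace.dist_eq, Fin.sum_univ_two, eC_zero, eC_zero, eC_one, eC_one,
    Real.dist_eq, Real.dist_eq, sq_abs, sq_abs]
  have h3 : Real.sqrt 3 ^ 2 = 3 := Real.sq_sqrt (by norm_num)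
  have : (p.1 - p.2 / 2 - (q.1 - q.2 / 2)) ^ 2 +
      (Real.sqrt 3 / 2 * p.2 - Real.sqrt 3 / 2 * q.2) ^ 2 = s ^ 2 := by
    rw [← h]
    have e : (Real.sqrt 3 / 2 * p.2 - Real.sqrt 3 / 2 * q.2) ^ 2 =
        Real.sqrt 3 ^ 2 / 4 * (p.2 - q.2) ^ 2 := by ring
    rw [e, h3]
    ring
  rw [this, Real.sqrt_sq hs]

/-- the three vertices of a tile -/
def va (t : Tile) : ℝ × ℝ := (t.2.1, t.2.2.1)
def vb (t : Tile) : ℝ × ℝ := if t.1 then (t.2.1 + sz t, t.2.2.1) else (t.2.1 - sz t, t.2.2.1)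
def vc (t : Tile) : ℝ × ℝ := if t.1 then (t.2.1, t.2.2.1 - sz t) else (t.2.1, t.2.2.1 + sz t)

theorem convex_Cl (t : Tile) : Convex ℝ (Cl t) := by
  obtain ⟨o, z, y, s⟩ := t
  intro p hp q hq a b ha hb hab
  have hb' : b = 1 - a := by linarith
  subst hb'
  cases o
  · rw [mem_Cl_f] at hp hq ⊢
    obtain ⟨h1, h2, h3⟩ := hp
    obtain ⟨k1, k2, k3⟩ := hq
    simp only [Prod.fst_add, Prod.smul_fst, smul_eq_mul, Prod.snd_add, Prod.smul_snd]
    have m1 := mul_le_mul_of_nonneg_left h1 ha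
    have m2 := mul_le_mul_of_nonneg_left h2 ha
    have m3 := mul_le_mul_of_nonneg_left h3 ha
    have n1 := mul_le_mul_of_nonneg_left k1 hb
    have n2 := mul_le_mul_of_nonneg_left k2 hb
    have n3 := mul_le_mul_of_nonneg_left k3 hb
    refine ⟨?_, ?_, ?_⟩ <;> nlinarith
  · rw [mem_Cl_t] at hp hq ⊢
    obtain ⟨h1, h2, h3⟩ := hp
    obtain ⟨k1, k2, k3⟩ := hq
    simp only [Prod.fst_add, Prod.smul_fst, smul_eq_mul, Prod.snd_add, Prod.smul_snd]
    have m1 := mul_le_mul_of_nonneg_left h1 ha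
    have m2 := mul_le_mul_of_nonneg_left h2 ha
    have m3 := mul_le_mul_of_nonneg_left h3 ha
    have n1 := mul_le_mul_of_nonneg_left k1 hb
    have n2 := mul_le_mul_of_nonneg_left k2 hb
    have n3 := mul_le_mul_of_nonneg_left k3 hb
    refine ⟨?_, ?_, ?_⟩ <;> nlinarith

theorem hull_eq (t : Tile) (hs : 0 < sz t) :
    convexHull ℝ ({va t, vb t, vc t} : Set (ℝ × ℝ)) = Cl t := by
  apply Set.Subset.antisymm
  · apply convexHull_min _ (convex_Cl t)
    obtain ⟨o, z, y, s⟩ := t
    have hs' : 0 < s := hs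
    intro p hp
    simp only [Set.mem_insert_iff, Set.mem_singleton_iff] at hp
    cases o
    · rw [mem_Cl_f]
      rcases hp with rfl | rfl | rfl <;> simp [va, vb, vc, sz] <;>
        (try constructor) <;> linarith
    · rw [mem_Cl_t]
      rcases hp with rfl | rfl | rfl <;> simp [va, vb, vc, sz] <;>
        (try constructor) <;> linarith
  · intro p hp
    have hconv := convex_convexHull ℝ ({va t, vb t, vc t} : Set (ℝ × ℝ))
    have hsub := subset_convexHull ℝ ({va t, vb t, vc t} : Set (ℝ × ℝ))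
    have ha : va t ∈ convexHull ℝ ({va t, vb t, vc t} : Set (ℝ × ℝ)) := hsub (by simp)
    have hb : vb t ∈ convexHull ℝ ({va t, vb t, vc t} : Set (ℝ × ℝ)) := hsub (by simp)
    have hc : vc t ∈ convexHull ℝ ({va t, vb t, vc t} : Set (ℝ × ℝ)) := hsub (by simp)
    have key : ∀ β γ : ℝ, 0 ≤ β → 0 ≤ γ → β + γ ≤ 1 →
        p = (1 - β - γ) • va t + β • vb t + γ • vc t →
        p ∈ convexHull ℝ ({va t, vb t, vc t} : Set (ℝ × ℝ)) := by
      intro β γ hβ hγ hβγ hpe
      have := hconv.sum_mem (t := Finset.univ) (w := ![1 - β - γ, β, γ])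
        (z := ![va t, vb t, vc t]) ?_ ?_ ?_
      · rw [Fin.sum_univ_three] at this
        rw [hpe]
        exact this
      · intro i _
        fin_cases i <;> simp <;> linarith
      · rw [Fin.sum_univ_three]
        simp
        ring
      · intro i _
        fin_cases i
        · exact ha
        · exact hb
        · exact hc
    obtain ⟨o, z, y, s⟩ := t
    have hs' : 0 < s := hs
    cases o
    · rw [mem_Cl_f] at hp
      obtain ⟨h1, h2, h3⟩ := hp
      apply key ((z - p.1) / s) ((p.2 - y) / s)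
      · exact div_nonneg (by linarith) hs'.le
      · exact div_nonneg (by linarith) hs'.le
      · rw [← add_div, div_le_one hs']
        linarith
      · ext
        · simp [va, vb, vc, sz]
          field_simp
          ring
        · simp [va, vb, vc, sz]
          field_simp
          ring
    · rw [mem_Cl_t] at hp
      obtain ⟨h1, h2, h3⟩ := hp
      apply key ((p.1 - z) / s) ((y - p.2) / s)
      · exact div_nonneg (by linarith) hs'.le
      · exact div_nonneg (by linarith) hs'.le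
      · rw [← add_div, div_le_one hs']
        linarith
      · ext
        · simp [va, vb, vc, sz]
          field_simp
          ring
        · simp [va, vb, vc, sz]
          field_simp
          ring

theorem interior_half (l : (ℝ × ℝ) →L[ℝ] ℝ) (v : ℝ × ℝ) (hv : l v = 1) (c : ℝ)
    (S : Set (ℝ × ℝ)) (hS : ∀ p ∈ S, l p ≤ c) (p : ℝ × ℝ) (hp : p ∈ interior S) : l p < c := by
  have hsurj : Function.Surjective l := by
    intro r
    exact ⟨r • v, by rw [map_smul, hv]; simp⟩
  have h1 : interior (l ⁻¹' Set.Iic c) = l ⁻¹' interior (Set.Iic c) :=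
    l.interior_preimage hsurj _
  have h2 : p ∈ interior (l ⁻¹' Set.Iic c) := interior_mono (fun q hq => hS q hq) hp
  rw [h1, interior_Iic] at h2
  exact h2

theorem interior_Cl (t : Tile) : interior (Cl t) ⊆ Op t := by
  obtain ⟨o, z, y, s⟩ := t
  intro p hp
  cases o
  · rw [mem_Op_f]
    have h1 := interior_half (ContinuousLinearMap.fst ℝ ℝ ℝ) (1, 0) (by simp) z _
      (fun q hq => ((mem_Cl_f z y s q).1 hq).1) p hp
    have h2 := interior_half (-(ContinuousLinearMap.snd ℝ ℝ ℝ)) (0, -1) (by simp) (-y) _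
      (fun q hq => by
        have := ((mem_Cl_f z y s q).1 hq).2.1
        simpa using this) p hp
    have h3 := interior_half (ContinuousLinearMap.snd ℝ ℝ ℝ - ContinuousLinearMap.fst ℝ ℝ ℝ)
      (0, 1) (by simp) (-(z - y - s)) _
      (fun q hq => by
        have := ((mem_Cl_f z y s q).1 hq).2.2
        simp
        linarith) p hp
    simp at h1 h2 h3
    exact ⟨h1, h2, by linarith⟩
  · rw [mem_Op_t]
    have h1 := interior_half (-(ContinuousLinearMap.fst ℝ ℝ ℝ)) (-1, 0) (by simp) (-z) _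
      (fun q hq => by
        have := ((mem_Cl_t z y s q).1 hq).1
        simpa using this) p hp
    have h2 := interior_half (ContinuousLinearMap.snd ℝ ℝ ℝ) (0, 1) (by simp) y _
      (fun q hq => ((mem_Cl_t z y s q).1 hq).2.1) p hp
    have h3 := interior_half (ContinuousLinearMap.fst ℝ ℝ ℝ - ContinuousLinearMap.snd ℝ ℝ ℝ)
      (1, 0) (by simp) (z - y + s) _
      (fun q hq => by
        have := ((mem_Cl_t z y s q).1 hq).2.2
        simpa using this) p hp
    simp at h1 h2 h3
    exact ⟨h1, h2, by linarith⟩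

theorem hull_image (t : Tile) (hs : 0 < sz t) :
    convexHull ℝ ({eC (va t), eC (vb t), eC (vc t)} : Set E2) = eC '' Cl t := by
  rw [← hull_eq t hs]
  have h := (eC : (ℝ × ℝ) →L[ℝ] E2).toLinearMap.image_convexHull ({va t, vb t, vc t} : Set (ℝ × ℝ))
  have h2 : (eC : (ℝ × ℝ) →L[ℝ] E2).toLinearMap '' ({va t, vb t, vc t} : Set (ℝ × ℝ)) =
      {eC (va t), eC (vb t), eC (vc t)} := by
    rw [Set.image_insert_eq, Set.image_pair]
    rfl
  rw [h2] at h
  exact h.symm

theorem dists (t : Tile) (hs : 0 < sz t) : dist (eC (va t)) (eC (vb t)) = sz t ∧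
    dist (eC (vb t)) (eC (vc t)) = sz t ∧ dist (eC (vc t)) (eC (va t)) = sz t := by
  obtain ⟨o, z, y, s⟩ := t
  cases o
  · refine ⟨?_, ?_, ?_⟩ <;> apply dist_eC _ _ _ hs.le <;> simp [va, vb, vc, sz] <;> ring
  · refine ⟨?_, ?_, ?_⟩ <;> apply dist_eC _ _ _ hs.le <;> simp [va, vb, vc, sz] <;> ring

theorem final : ∃ (a b c : ℕ → EuclideanSpace ℝ (Fin 2)) (s : ℕ → ℝ),
      (∀ n, 0 < s n ∧ dist (a n) (b n) = s n ∧ dist (b n) (c n) = s n ∧
        dist (c n) (a n) = s n) ∧
      Function.Injective s ∧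
      (⋃ n, convexHull ℝ ({a n, b n, c n} : Set (EuclideanSpace ℝ (Fin 2)))) = Set.univ ∧
      ∀ m n, m ≠ n →
        Disjoint
          (interior (convexHull ℝ ({a m, b m, c m} : Set (EuclideanSpace ℝ (Fin 2)))))
          (interior (convexHull ℝ ({a n, b n, c n} : Set (EuclideanSpace ℝ (Fin 2))))) := by
  obtain ⟨S, hcount, hinf, hpos, hinj, hcov, hdis⟩ := exists_tiling
  have : Countable S := hcount.to_subtype
  have : Infinite S := hinf.to_subtype
  obtain ⟨hden⟩ := nonempty_denumerable S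
  let u : ℕ ≃ S := (Denumerable.eqv S).symm
  refine ⟨fun n => eC (va (u n).1), fun n => eC (vb (u n).1), fun n => eC (vc (u n).1),
    fun n => sz (u n).1, ?_, ?_, ?_, ?_⟩
  · intro n
    have h := hpos _ (u n).2
    exact ⟨h, dists _ h⟩
  · intro m n hmn
    exact u.injective (Subtype.ext (hinj _ (u m).2 _ (u n).2 hmn))
  · rw [Set.eq_univ_iff_forall]
    intro x
    obtain ⟨t, ht, hx⟩ := hcov (eC.symm x)
    rw [Set.mem_iUnion]
    refine ⟨u.symm ⟨t, ht⟩, ?_⟩
    simp only [Equiv.apply_symm_apply]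
    rw [hull_image t (hpos t ht)]
    exact ⟨eC.symm x, hx, by simp⟩
  · intro m n hmn
    have hne : (u m).1 ≠ (u n).1 := fun h => hmn (u.injective (Subtype.ext h))
    have hd := hdis _ (u m).2 _ (u n).2 hne
    have key : ∀ k, interior (convexHull ℝ ({eC (va (u k).1), eC (vb (u k).1), eC (vc (u k).1)} :
        Set E2)) ⊆ eC '' Op (u k).1 := by
      intro k
      rw [hull_image _ (hpos _ (u k).2)]
      have : interior (eC '' Cl (u k).1) = eC '' interior (Cl (u k).1) :=
        (eC.toHomeomorph.image_interior _).symm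
      rw [this]
      exact Set.image_mono (interior_Cl _)
    exact Set.disjoint_of_subset (key m) (key n)
      ((Set.disjoint_image_iff eC.injective).2 hd)

end Pool.Agent.H443R3.TT
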